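import Pool.Agent.W_eea520_h66.MainC

/-!
# Analytic continuation of the L-functions of `GSp(2n)`: representations not involving spin

`S k` and `P n` are arbitrary sets of systems of parameters for `GL_k` and `GSp_{2n}` with the properties
`IsCuspidal`; `S` contains the contragredients of its members (`ClosedDual`). For example, the systems of
Satake parameters of the unitary cuspidal automorphic representations. `Eis S P n` consists of all
systems for `GSp_{2n}` obtained from them by parabolic induction with arbitrary complex twists,
`Eis S Triv n` of those which are induced from the Siegel parabolic subgroup, and `IsIsobaric S` is the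
corresponding property of systems for `GL_N`. The families in `UFam S Triv L n` are the unitary families
`F t = σ_L |det| ^ (-i t_L) × … × σ_1 |det| ^ (-i t_1)`, `t ∈ ℝ ^ L`, `σ_j ∈ S k_j`,
`n = k_1 + … + k_L`, attached to the Siegel parabolic subgroup.

`klingen π z` is the system of the representation of `GSp_{2n+2}` induced from `|·| ^ (-z) ⊗ π`, with
`π` on the factor `GSp_{2n}` of the Levi subgroup `GL_1 × GSp_{2n}`, twisted such that the central
character does not change, and `Tower Z π N` is the set of the systems for `GSp_{2N}` obtained from `π`
by repeating this `N - n` times with `z` in the sets `Z`, whose real parts are not bounded below (for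
example, `z < z₀`, such that the Eisenstein series converge absolutely).

`IsIrr k μ m` says that `m` is the character of the irreducible representation of `GSpin` with the
highest weight `(k, μ)` (Weyl's character formula). It is trivial on the element `-1` of the spin
group, that is, up to a power of the similitude factor a representation of the orthogonal group, if and
only if `k` is even; the coordinates of its highest weight in the usual sense are the
`μ_i - k / 2 ≥ 0`. The Euler product of `klingen π' z` for `m` converges absolutely for
`Re s > (μ_0 - k / 2) |Re z| + C`, where `C` does not depend on `z`.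
-/

namespace Pool.Agent.Results.MP_eea520_nt.EvenReduction

open Pool.Agent.EEA520 MeasureTheory

/-- The following are equivalent:

(a) for all `n` and all `π` in `Eis S Triv n` with trivial central character there are a number `l / 2 > 0`
and one irreducible representation of some `GSpin_{2N+3}`, trivial on `-1`, such that apart from the
first one at least `2n` of the coordinates of its highest weight are equal to `l / 2`, and such that
for all `π'` in `Tower Z π N` and all `R` there is a `z` with `Re z < -R` for which the Euler product of
`klingen π' z` extends meromorphically to the half strip `Re s > (μ_0 - k / 2) |Re z| - R`,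
`|Im (s + (μ_0 - k / 2) z)| < R` (see `OneV` and `ContinuesBeyond`);

(b) for every `r` there are a rank `N` and an irreducible representation of `GSpin_{2N+1}`, trivial on
`-1`, with at least `r` equal positive coordinates of its highest weight, such that for every unitary
family `F` in `UFam S Triv L N` with `L ≥ 1` parameters, every function `u` such that the twists of
`F t` by the power `-i u t` of the absolute value of the similitude factor have trivial central
character, and every real number `C` the set of all `t` for which the Euler product of this twist for
this representation extends meromorphically to `Re s > C` is not meagre or does not have measure zero;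

(c) for all `n`, all `π` in `Eis S P n` with the property `HasTransfer` and all virtual characters `m` of
`GSpin_{2n+1}` which are trivial on `-1` the Euler product of `π` for `m` extends meromorphically to `ℂ`;

(d) for all `N`, all isobaric sums `τ` of twists of members of `S` (systems for `GL_N`) and all virtual
characters `m` of `GL_N` the Euler product of `τ` for `m` extends meromorphically to `ℂ`. -/
theorem result (S : (k : ℕ) → Set (GLSys k)) (P : (n : ℕ) → Set (GSys n)) (h : IsCuspidal S P)
    (hd : ClosedDual S) (Z : (n : ℕ) → GSys n → Set ℂ)
    (hZ : ∀ (n : ℕ) (π : GSys n) (B : ℝ), ∃ z ∈ Z n π, z.re < B) : List.TFAE [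
    ∀ (n : ℕ) (π : GSys n), Eis S Triv n π → TrivialCentral π →
      ∃ (k : ℤ) (l : ℕ), Even k ∧ Even l ∧ 0 < l ∧ OneV Z k l π,
    ∀ r : ℕ, ∃ (N : ℕ) (k : ℤ) (μ : Fin N → ℤ) (m : Wt N →₀ ℤ) (v : ℤ), Even k ∧
      IsIrr k μ m ∧ k < 2 * v ∧ r ≤ (Finset.univ.filter fun i => μ i = v).card ∧
      ∀ (L : ℕ) (F : (Fin L → ℝ) → GSys N), 0 < L → UFam S Triv L N F →
        ∀ u : (Fin L → ℝ) → ℝ, (∀ t, TrivialCentral (twist (F t) (u t * Complex.I))) →
          ∀ C : ℝ, ¬ (IsMeagre {t | ContinuesTo C (twist (F t) (u t * Complex.I)) m} ∧
            volume {t | ContinuesTo C (twist (F t) (u t * Complex.I)) m} = 0),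
    ∀ (n : ℕ) (π : GSys n), Eis S P n π → HasTransfer S π → ∀ m : Wt n →₀ ℤ, IsCharacter m →
      IsEven m → Continues π m,
    ∀ (N : ℕ) (τ : GLSys N), IsIsobaric S τ → ∀ m : (Fin N → ℤ) →₀ ℤ, IsSymmetric m →
      GLContinues τ m] :=
  mainEven h hd hZ

end Pool.Agent.Results.MP_eea520_nt.EvenReduction
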